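import Mathlib
import Pool.Agent.R861.ID.Asym

/-!
# MP_8cad3b_co, Q1: independent versus ordinary domination in `G_{l,2}(n)`

The definitions used (`Pool.Agent.R861.ID`): `Vtx l n` is the set of `l`- and `2`-subsets of `[n]`,
`levelGraph l n` is the graph `G_{l,2}(n)`, `indepDomNumber` is the independent domination number,
`cst l = (l+3)/((l-1)(l+1))` is the constant `c_l`, and `gap l = 2(l-3)/((l-1)^3(l+1))`.
-/

namespace Pool.Agent.Results.MP_8cad3b_co.StrictGap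

open Finset Filter Topology Pool.Agent.R861.ID

/-- **Q1 of MP_8cad3b_co (affirmative answer, with an explicit gap).**  For every `l ≥ 4`, the
liminf of `i(G_{l,2}(n))/C(n,2)` is at least `c_l + 2(l-3)/((l-1)^3(l+1)) > c_l`; the independent
domination number is attained by an independent dominating set for every `n`. -/
theorem result (l : ℕ) (hl : 4 ≤ l) :
    (∀ n : ℕ, ∃ D : Finset (Vtx l n), IsIndependent (levelGraph l n) D ∧
      IsDominating (levelGraph l n) D ∧ D.card = indepDomNumber (levelGraph l n)) ∧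
    0 < 2 * ((l : ℝ) - 3) / (((l : ℝ) - 1) ^ 3 * ((l : ℝ) + 1)) ∧
    (∀ ε : ℝ, ε < 2 * ((l : ℝ) - 3) / (((l : ℝ) - 1) ^ 3 * ((l : ℝ) + 1)) →
      ∀ᶠ n : ℕ in atTop,
        (((l : ℝ) + 3) / (((l : ℝ) - 1) * ((l : ℝ) + 1)) + ε) * (n.choose 2 : ℝ) ≤
          (indepDomNumber (levelGraph l n) : ℝ)) ∧
    ((l : ℝ) + 3) / (((l : ℝ) - 1) * ((l : ℝ) + 1)) <
      liminf (fun n : ℕ => (indepDomNumber (levelGraph l n) : ℝ) / (n.choose 2 : ℝ)) atTop := by
  have hl4 : (4 : ℝ) ≤ l := by exact_mod_cast hl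
  have hpos : 0 < 2 * ((l : ℝ) - 3) / (((l : ℝ) - 1) ^ 3 * ((l : ℝ) + 1)) := by
    have h1 : (0 : ℝ) < (l : ℝ) - 1 := by linarith
    have h2 : (0 : ℝ) < (l : ℝ) - 3 := by linarith
    positivity
  refine ⟨fun n => ?_, hpos, fun ε hε => eventually_bound l hl ε hε, ?_⟩
  · have hne : {m | ∃ D : Finset (Vtx l n), IsIndependent (levelGraph l n) D ∧
        IsDominating (levelGraph l n) D ∧ D.card = m}.Nonempty := by
      obtain ⟨D, hD1, hD2, hD3⟩ := pairs_ok (l := l) (n := n) (by omega)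
      exact ⟨_, D, hD1, hD2, hD3⟩
    obtain ⟨D, hD1, hD2, hD3⟩ := Nat.sInf_mem hne
    exact ⟨D, hD1, hD2, hD3⟩
  · have h := liminf_bound l hl
    have h2 : cst l = ((l : ℝ) + 3) / (((l : ℝ) - 1) * ((l : ℝ) + 1)) := rfl
    have h3 : gap l = 2 * ((l : ℝ) - 3) / (((l : ℝ) - 1) ^ 3 * ((l : ℝ) + 1)) := rfl
    rw [h2, h3] at h
    linarith

end Pool.Agent.Results.MP_8cad3b_co.StrictGap
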